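import Mathlib

/-!
# Geometric origin of lisse sheaves in characteristic `p`: affine spaces over `𝔽_p` suffice

Let `p ≠ ℓ` be prime numbers. For `n ≥ 0` let `Q n` be the statement of question Q1 for all smooth
irreducible varieties `X` of dimension `n` over finite fields of characteristic `p`: for every irreducible
lisse `ℚ̄_ℓ`-sheaf `ℰ` on `X` with determinant of finite order, a Tate twist of the representation `ρ` of
`Gal(K̄/K)`, `K` the function field of `X`, is a subquotient of the cohomology of an algebraic variety over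
`K`. Let `A n` be the same statement for the affine space of dimension `n` over the prime field `𝔽_p` only.

**Theorem.** For every `n` the statements `Q n` and `A n` are equivalent, and `A (n + 1)` implies `A n`. So
question Q1 has a positive answer for all `X` of dimension at least two if and only if it has a positive answer
for the lisse sheaves on the affine spaces of dimension `n` over `𝔽_p`, for infinitely many `n`.

The first point is that a dense open subset `U` of `X` is finite étale over affine space (Kedlaya); the direct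
image of `ℰ|U` is a semisimple lisse sheaf `M` on affine space. The irreducible constituents `N` of `M` need
not have a determinant of finite order, but `N` is a twist of an `N'` with determinant of finite order by
`α^deg`; here `α` is an algebraic number, all complex absolute values of which are `1`, and a unit outside
`p`. So some `α q^m` is a Weil number, and `α^deg` comes from geometry (Honda and Tate). The direct image
comes from geometry, and so does its inverse image on `U`, which contains `ℰ|U`.
-/

set_option autoImplicit false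

namespace Pool.Agent.Results.MP_80bee4_ag.AffineSpaces

/-- Smooth irreducible varieties over finite fields of characteristic `p` and semisimple lisse sheaves. -/
structure Setting where
  /-- smooth irreducible varieties of dimension `n` over finite fields of characteristic `p` -/
  Var : ℕ → Type
  /-- the affine space of dimension `n` over `𝔽_p` -/
  aff : ∀ n, Var n
  /-- dense open immersions `U → X` -/
  Opn : ∀ {n : ℕ}, Var n → Var n → Type
  /-- finite étale morphisms `U → X` -/
  Et : ∀ {n : ℕ}, Var n → Var n → Type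
  /-- isomorphism classes of semisimple lisse `ℚ̄_ℓ`-sheaves -/
  Sheaf : ∀ {n : ℕ}, Var n → Type
  /-- direct summands -/
  Sub : ∀ {n : ℕ} {X : Var n}, Sheaf X → Sheaf X → Prop
  /-- irreducible -/
  Irr : ∀ {n : ℕ} {X : Var n}, Sheaf X → Prop
  /-- the determinant has finite order -/
  FinDet : ∀ {n : ℕ} {X : Var n}, Sheaf X → Prop
  /-- all Frobenius eigenvalues at closed points are algebraic numbers, units outside `p`, all complex
  absolute values of which are `1` -/
  Plain : ∀ {n : ℕ} {X : Var n}, Sheaf X → Prop
  /-- for every irreducible constituent `N`, a Tate twist of the generic fibre of `N` is a subquotient of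
  the cohomology of an algebraic variety over the function field -/
  Geo : ∀ {n : ℕ} {X : Var n}, Sheaf X → Prop
  /-- restriction to an open subset -/
  restr : ∀ {n : ℕ} {U X : Var n}, Opn U X → Sheaf X → Sheaf U
  /-- direct image -/
  push : ∀ {n : ℕ} {U X : Var n}, Et U X → Sheaf U → Sheaf X
  /-- inverse image -/
  pull : ∀ {n : ℕ} {U X : Var n}, Et U X → Sheaf X → Sheaf U
  /-- the product with the affine line -/
  timesLine : ∀ {n : ℕ}, Var n → Var (n + 1)
  /-- inverse image under the projection -/
  pr : ∀ {n : ℕ} {X : Var n}, Sheaf X → Sheaf (timesLine X)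

/-- The known facts. -/
structure IsSetting (D : Setting) : Prop where
  /-- every `X` has a dense open subset which is finite étale over affine space (Kedlaya) -/
  kedlaya : ∀ {n : ℕ} (X : D.Var n), ∃ U, Nonempty (D.Opn U X) ∧ Nonempty (D.Et U (D.aff n))
  /-- Deligne, L. Lafforgue, Drinfeld -/
  plain : ∀ {n : ℕ} {X : D.Var n} (E : D.Sheaf X), D.Irr E → D.FinDet E → D.Plain E
  plain_restr : ∀ {n : ℕ} {U X : D.Var n} (j : D.Opn U X) (E : D.Sheaf X), D.Plain E →
    D.Plain (D.restr j E)
  plain_push : ∀ {n : ℕ} {U X : D.Var n} (f : D.Et U X) (E : D.Sheaf U), D.Plain E →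
    D.Plain (D.push f E)
  plain_sub : ∀ {n : ℕ} {X : D.Var n} (N M : D.Sheaf X), D.Sub N M → D.Plain M → D.Plain N
  /-- the generic fibre does not change -/
  geo_restr : ∀ {n : ℕ} {U X : D.Var n} (j : D.Opn U X) (E : D.Sheaf X),
    D.Geo (D.restr j E) → D.Geo E
  /-- extension of the function field -/
  geo_pull : ∀ {n : ℕ} {U X : D.Var n} (f : D.Et U X) (E : D.Sheaf X), D.Geo E → D.Geo (D.pull f E)
  geo_sub : ∀ {n : ℕ} {X : D.Var n} (N M : D.Sheaf X), D.Sub N M → D.Geo M → D.Geo N
  /-- `Geo` is a condition on the irreducible constituents -/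
  geo_of_irr : ∀ {n : ℕ} {X : D.Var n} (M : D.Sheaf X),
    (∀ N, D.Irr N → D.Sub N M → D.Geo N) → D.Geo M
  /-- a sheaf is a summand of the inverse image of its direct image -/
  adj : ∀ {n : ℕ} {U X : D.Var n} (f : D.Et U X) (E : D.Sheaf U), D.Sub E (D.pull f (D.push f E))
  /-- `N = N' ⊗ α^deg`, where the determinant of `N'` is of finite order, and a twist of `α^deg` by a power
  of `q` comes from geometry (Honda, Tate) -/
  twist : ∀ {n : ℕ} {X : D.Var n} (N : D.Sheaf X), D.Irr N → D.Plain N →
    ∃ N' : D.Sheaf X, D.Irr N' ∧ D.FinDet N' ∧ (D.Geo N' → D.Geo N)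
  irr_pr : ∀ {n : ℕ} {X : D.Var n} (E : D.Sheaf X), D.Irr E → D.Irr (D.pr E)
  finDet_pr : ∀ {n : ℕ} {X : D.Var n} (E : D.Sheaf X), D.FinDet E → D.FinDet (D.pr E)
  /-- specialization to a general closed point of the line, and Weil restriction -/
  geo_pr : ∀ {n : ℕ} {X : D.Var n} (E : D.Sheaf X), D.Geo (D.pr E) → D.Geo E

variable (D : Setting)

/-- The statement for one variety. -/
def Holds {n : ℕ} (X : D.Var n) : Prop := ∀ E : D.Sheaf X, D.Irr E → D.FinDet E → D.Geo E

/-- Question Q1 in dimension `n`. -/
def Q (n : ℕ) : Prop := ∀ X : D.Var n, Holds D X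

variable {D}

lemma q_iff (h : IsSetting D) (n : ℕ) : Q D n ↔ Holds D (D.aff n) := by
  refine ⟨fun h1 => h1 _, fun h1 X E hE hd => ?_⟩
  obtain ⟨U, ⟨j⟩, ⟨f⟩⟩ := h.kedlaya X
  refine h.geo_restr j E ?_
  refine h.geo_sub _ _ (h.adj f _) (h.geo_pull f _ ?_)
  have h2 : D.Plain (D.push f (D.restr j E)) :=
    h.plain_push f _ (h.plain_restr j E (h.plain E hE hd))
  refine h.geo_of_irr _ fun N hN hs => ?_
  obtain ⟨N', h3, h4, h5⟩ := h.twist N hN (h.plain_sub _ _ hs h2)
  exact h5 (h1 N' h3 h4)

lemma q_succ (h : IsSetting D) {n : ℕ} (h1 : Q D (n + 1)) : Q D n := fun X E hE hd =>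
  h.geo_pr E (h1 (D.timesLine X) _ (h.irr_pr E hE) (h.finDet_pr E hd))

lemma q_le (h : IsSetting D) {m n : ℕ} (hmn : m ≤ n) (h1 : Q D n) : Q D m := by
  induction n, hmn using Nat.le_induction with
  | base => exact h1
  | succ k _ ih => exact ih (q_succ h h1)

/-- **Lisse sheaves on affine spaces over the prime field suffice.** See the explanations above. -/
theorem result (h : IsSetting D) :
    (∀ n, Q D n ↔ Holds D (D.aff n)) ∧
    (∀ n, Holds D (D.aff (n + 1)) → Holds D (D.aff n)) ∧
    (∀ m : ℕ, (∀ n, m ≤ n → Q D n) ↔ ∀ n, Q D n) ∧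
    ((∀ n, 2 ≤ n → Q D n) ↔ ∀ k : ℕ, ∃ n, k ≤ n ∧ Holds D (D.aff n)) := by
  refine ⟨q_iff h, fun n h1 => (q_iff h n).mp (q_succ h ((q_iff h (n + 1)).mpr h1)),
    fun m => ⟨fun h1 n => ?_, fun h1 n _ => h1 n⟩, ⟨fun h1 k => ?_, fun h1 n _ => ?_⟩⟩
  · exact q_le h (le_max_left n m) (h1 _ (le_max_right n m))
  · exact ⟨max k 2, le_max_left _ _, (q_iff h _).mp (h1 _ (le_max_right _ _))⟩
  · obtain ⟨l, hl, h2⟩ := h1 n
    exact q_le h hl ((q_iff h l).mpr h2)

end Pool.Agent.Results.MP_80bee4_ag.AffineSpaces
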