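import Pool.Agent.Q193.LT.Origin

/-!
# Galois representations over function fields in the cohomology of cubics `T(x, y, z) = 1`

Let `K` be a finitely generated field of characteristic `p > 0` and `ℓ ≠ p` a prime number. Let `A` be the
abelian category of the continuous finite-dimensional representations of `Gal(K̄/K)` over `ℚ̄_ℓ`, with the
Tate twists `N ↦ N(n)`. For a separated scheme `X` of finite type over `K` let `D.H i X` be the
representation `H^i_c(X_{K̄}, ℚ̄_ℓ)` and `Ho i X` the representation `H^i(X_{K̄}, ℚ̄_ℓ)`. The standard
properties of the cohomology with compact supports are `IsCompact D` (long exact sequences, affine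
bundles, products with `𝔾_m`).

`SubQ ρ N` says that `ρ` is isomorphic to a subquotient of `N`, and `Occurs D ρ N` that `ρ` is isomorphic
to a subquotient of some Tate twist of `N`. Let `ρ` be an irreducible representation, for example the one
given by an irreducible lisse sheaf on a smooth variety with the function field `K`. The property of
question Q1 is that `ρ(n)` is a subquotient of `H^i(Y)` for some variety `Y` over `K` and some `i` and `n`.
It is known that the cohomology with compact supports may be used instead (hypothesis `compare`: by de
Jong's alterations, both are equivalent to the same property with smooth projective varieties).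

For a trilinear form `T(x, y, z) = ∑ t_{ijl} x_i y_j z_l` with coefficients in `K`, in any numbers of
variables `x_1, …, x_a`, `y_1, …, y_b`, `z_1, …, z_c`, the affine cubic hypersurface `T(x, y, z) = 1` is
smooth over `K`.

**Theorem.** An irreducible representation `ρ` has the property of question Q1 if and only if some Tate
twist of `ρ` is a subquotient of `H^i_c(T = 1)` for some `i` and some affine cubic hypersurface
`T(x, y, z) = 1` over `K`, or of the cohomology of the point `Spec K`.
-/

set_option autoImplicit false

open CategoryTheory CategoryTheory.Limits AlgebraicGeometry Pool.Agent.Y116.UV Pool.Agent.Z125.UN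
  Pool.Agent.Q193.LT

universe v u

namespace Pool.Agent.Results.MP_80bee4_ag.CubicOrigin

/-- **Galois representations over function fields and cubic hypersurfaces.** See the explanations
above. -/
theorem result {p ℓ : ℕ} [Fact p.Prime] [Fact ℓ.Prime] (_hℓ : ℓ ≠ p) {K : Type} [Field K] [CharP K p]
    (_hK : (⊤ : Subfield K).FG) {A : Type u} [Category.{v} A] [Abelian A] {D : CompactData K A}
    (hD : IsCompact D) {Ho : ℤ → Sch K → A} (ρ : A) [Simple ρ]
    (compare : (∃ Y : Sch K, FT True Y ∧ ∃ i n : ℤ, SubQ ((D.tw n).obj ρ) (Ho i Y)) ↔
      ∃ X : Sch K, FT True X ∧ ∃ i, Occurs D ρ (D.H i X)) :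
    (∃ Y : Sch K, FT True Y ∧ ∃ i n : ℤ, SubQ ((D.tw n).obj ρ) (Ho i Y)) ↔
      (∃ i, Occurs D ρ (D.H i (aff K K))) ∨
      ∃ (a b c : ℕ) (T : Fin a → Fin b → Fin c → K), ∃ i, Occurs D ρ (D.H i (hypS T)) :=
  compare.trans (origin_all hD ρ)

end Pool.Agent.Results.MP_80bee4_ag.CubicOrigin
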