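import Pool.Agent.Q170.GO.Occ

/-!
# Geometric origin of lisse sheaves: cubics over the function field, one weight, dimension by dimension

Let `K` be the function field of the smooth irreducible variety `X` over `𝔽_q`, `p` the characteristic,
`ℓ ≠ p`, and `ρ` the representation of `Gal(K̄/K)` over `ℚ̄_ℓ` which is given by an irreducible lisse sheaf on
`X`; we assume that `ρ` is not a power of the cyclotomic character. (Powers of the cyclotomic character come
from a point.) The perfect closure `k` of `K` has the same Galois group.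

`Hs i Y` is the cohomology `H^i(Y ⊗ K̄, ℚ̄_ℓ)` of the schemes `Y` over `K`; `D.H j X` and `D.G w j X` are the
cohomology with compact supports `H^j_c(X ⊗ k̄, ℚ̄_ℓ)` of the schemes `X` over `k` and its part of weight `w`.

**Theorem.** The following are equivalent:

1. `ρ` comes from a variety over `K` (the conclusion of Q1): some Tate twist of `ρ` is a subquotient of
   `H^i(Y ⊗ K̄)` for a separated scheme `Y` of finite type over `K`;
2. the same with a smooth projective scheme over `k`;
3. there is a trilinear form `T` with coefficients in `K` such that some Tate twist of `ρ` is a subquotient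
   of the part of weight `j - 1` of the cohomology `H^j_c` of the smooth affine cubic `T(x, y, z) = 1`.

Moreover, for every `n`, the representation `ρ` occurs in the cohomology of a smooth projective scheme of
dimension at most `n` over `k` if and only if it occurs in `H^i_c(T = 1)` for a trilinear form `T` over `K`
with a block of at most `n + 2` variables.

Geometrically, `ρ` is a constituent of a pull back of `R^j f_! ℚ̄_ℓ` along a rational map from `X` to the
base of the universal family `f` of the cubics `T(x, y, z) = 1`.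
-/

set_option autoImplicit false

open CategoryTheory CategoryTheory.Limits AlgebraicGeometry Pool.Agent.Y116.UV Pool.Agent.Z125.UN
  Pool.Agent.Q193.LT Pool.Agent.Q148.LI Pool.Agent.Q170.GO

namespace Pool.Agent.Results.MP_80bee4_ag.CubicsOverFunctionField

/-- Representations over `ℚ̄_ℓ` of the absolute Galois group of `K`: modules over the group algebra. -/
abbrev GRep (K : Type) [Field K] (ℓ : ℕ) [Fact ℓ.Prime] : Type 1 :=
  ModuleCat.{0} (MonoidAlgebra (AlgebraicClosure ℚ_[ℓ]) (Field.absoluteGaloisGroup K))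

variable {K k : Type} [Field K] [Field k] [Algebra K k] {p ℓ : ℕ} [Fact ℓ.Prime]

/-- The cubic `T(x, y, z) = 1` over `k` for a trilinear form `T` over `K`. -/
noncomputable abbrev cub (k : Type) [Field k] [Algebra K k] {a b c : ℕ}
    (T : Fin a → Fin b → Fin c → K) : Sch k :=
  hypS fun i j l => algebraMap K k (T i j l)

/-- `ρ` comes from a variety over `K`. -/
def Comes (Hs : ℤ → Sch K → GRep K ℓ) (D : Data k (GRep K ℓ)) (ρ : GRep K ℓ) : Prop :=
  ∃ Y : Sch K, FT True Y ∧ ∃ i, D.Occ ρ (Hs i Y)

/-- Known relations between the cohomology of schemes over `K` and over its perfect closure `k`.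

* `alter`: a simple subquotient of (a twist of) the cohomology of a scheme over `K` is one of the
  cohomology of a smooth projective scheme over `k` (de Jong);
* `descend`: a smooth projective scheme `Y'` over `k` is defined over a finite purely inseparable extension
  of `K`, and so it gives a scheme over `K` with the same cohomology;
* `frobG`, `frobH`: the relative Frobenius is a homeomorphism, so that the cohomology of `T(x, y, z) = 1`
  does not change if the coefficients of `T` are replaced by their `p ^ m`-th powers. -/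
structure Compatible (p : ℕ) (Hs : ℤ → Sch K → GRep K ℓ) (D : Data k (GRep K ℓ)) : Prop where
  alter : ∀ Y : Sch K, FT True Y → ∀ (i : ℤ) (S : GRep K ℓ), Simple S → D.Occ S (Hs i Y) →
    ∃ Y' : Sch k, SmoothProj Y' ∧ ∃ i', D.Occ S (D.H i' Y')
  descend : ∀ Y' : Sch k, SmoothProj Y' → ∃ Y : Sch K, FT True Y ∧
    ∀ i, Nonempty (Hs i Y ≅ D.H i Y')
  frobG : ∀ {a b c : ℕ} (T : Fin a → Fin b → Fin c → k) (m : ℕ) (w j : ℤ),
    Nonempty (D.G w j (hypS T) ≅ D.G w j (hypS fun i j l => T i j l ^ p ^ m))
  frobH : ∀ {a b c : ℕ} (T : Fin a → Fin b → Fin c → k) (m : ℕ) (j : ℤ),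
    Nonempty (D.H j (hypS T) ≅ D.H j (hypS fun i j l => T i j l ^ p ^ m))

/-- A power of the coefficients is in `K`. -/
lemma exists_power [CharP K p] [Fact p.Prime] [IsPurelyInseparable K k] {a b c : ℕ}
    (T : Fin a → Fin b → Fin c → k) : ∃ (m : ℕ) (T' : Fin a → Fin b → Fin c → K),
      (fun i j l => T i j l ^ p ^ m) = fun i j l => algebraMap K k (T' i j l) := by
  classical
  have : ExpChar K p := ExpChar.prime Fact.out
  have h1 : ∀ x : k, ∃ n : ℕ, x ^ p ^ n ∈ (algebraMap K k).range :=
    fun x => IsPurelyInseparable.pow_mem K p x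
  choose e he using h1
  let m : ℕ := ∑ i, ∑ j, ∑ l, e (T i j l)
  have h2 : ∀ i j l, T i j l ^ p ^ m ∈ (algebraMap K k).range := by
    intro i j l
    have h3 : e (T i j l) ≤ m := by
      calc e (T i j l) ≤ ∑ l, e (T i j l) :=
            Finset.single_le_sum (f := fun l => e (T i j l)) (fun _ _ => Nat.zero_le _)
              (Finset.mem_univ l)
        _ ≤ ∑ j, ∑ l, e (T i j l) :=
            Finset.single_le_sum (f := fun j => ∑ l, e (T i j l)) (fun _ _ => Nat.zero_le _)
              (Finset.mem_univ j)
        _ ≤ m := Finset.single_le_sum (f := fun i => ∑ j, ∑ l, e (T i j l))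
              (fun _ _ => Nat.zero_le _) (Finset.mem_univ i)
    obtain ⟨d, hd⟩ := Nat.exists_eq_add_of_le h3
    rw [hd, pow_add, pow_mul]
    exact pow_mem (he _) _
  choose T' hT' using h2
  exact ⟨m, T', funext fun i => funext fun j => funext fun l => (hT' i j l).symm⟩

/-- **Cubics over the function field decide.** See the explanations above. -/
theorem result [CharP K p] [Fact p.Prime] [IsPurelyInseparable K k] [PerfectField k]
    {Hs : ℤ → Sch K → GRep K ℓ} {D : Data k (GRep K ℓ)} {one : GRep K ℓ}
    (hD : IsGeo D one) (hc : Compatible p Hs D) (ρ : GRep K ℓ) [Simple ρ]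
    (hρ : D.NotTate one ρ) :
    List.TFAE [
      Comes Hs D ρ,
      ∃ Y : Sch k, SmoothProj Y ∧ ∃ i, D.Occ ρ (D.H i Y),
      ∃ (a b c : ℕ) (T : Fin a → Fin b → Fin c → K), ∃ j, D.Occ ρ (D.G (j - 1) j (cub k T))] ∧
    ∀ n : ℕ, D.From ρ n ↔ ∃ (a b c : ℕ) (T : Fin a → Fin b → Fin c → K),
      (a ≤ n + 2 ∨ b ≤ n + 2 ∨ c ≤ n + 2) ∧ ∃ i, D.Occ ρ (D.H i (cub k T)) := by
  have h1 : (∃ Y : Sch k, SmoothProj Y ∧ ∃ i, D.Occ ρ (D.H i Y)) ↔
      ∃ (a b c : ℕ) (T : Fin a → Fin b → Fin c → k), ∃ j, D.Occ ρ (D.G (j - 1) j (hypS T)) :=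
    (occ_iff hD hρ).out 0 2
  constructor
  · tfae_have 1 → 2 := fun ⟨Y, hY, i, hi⟩ => hc.alter Y hY i ρ ‹_› hi
    tfae_have 2 → 1 := by
      rintro ⟨Y', hY', i, hi⟩
      obtain ⟨Y, hY, e⟩ := hc.descend Y' hY'
      obtain ⟨e⟩ := e i
      exact ⟨Y, hY, i, occ_iso e.symm hi⟩
    tfae_have 3 → 2 := by
      rintro ⟨a, b, c, T, h2⟩
      exact h1.mpr ⟨a, b, c, _, h2⟩
    tfae_have 2 → 3 := by
      intro h2
      obtain ⟨a, b, c, T, j, hj⟩ := h1.mp h2
      obtain ⟨m, T', hT'⟩ := exists_power (K := K) (p := p) T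
      obtain ⟨e⟩ := hc.frobG T m (j - 1) j
      refine ⟨a, b, c, T', j, ?_⟩
      have h3 := occ_iso e hj
      rwa [hT'] at h3
    tfae_finish
  · intro n
    rw [from_iff hD hρ n]
    constructor
    · rintro ⟨a, b, c, T, hT, i, hi⟩
      obtain ⟨m, T', hT'⟩ := exists_power (K := K) (p := p) T
      obtain ⟨e⟩ := hc.frobH T m i
      refine ⟨a, b, c, T', hT, i, ?_⟩
      have h3 := occ_iso e hi
      rwa [hT'] at h3
    · rintro ⟨a, b, c, T, hT, i, hi⟩
      exact ⟨a, b, c, _, hT, i, hi⟩

end Pool.Agent.Results.MP_80bee4_ag.CubicsOverFunctionField
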